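import Pool.Agent.TH819.PB.Bs
import Pool.Agent.V1173.BS.OneSide

/-!
# One-sided variance and first moment of the primes in short intervals

Let `k ≥ 2`, `δ > 0`. For all large `X` and `1 ≤ H ≤ X ^ (1 / (2 k) - δ)` put `T = √(H (1 + log H))` and
`U = c T (T / (H log X)) ^ (1 / (2 k - 1))`. The mean of `|ψ(x;H) - z|` over `1 ≤ x ≤ X` is at least `U` for every real
centre `z`, and if `y` is the mean of `ψ(x;H)` then the positive part as well as the negative part of `ψ(x;H) - y` has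
mean square at least `U ^ 2`.
-/

set_option autoImplicit false

open MeasureTheory

namespace Pool.Agent.Results.MP_2a816b_nt.OneSidedVariance

/-- The weighted number of prime powers in the interval of length `H` centred at `x`. -/
noncomputable def psi (x H : ℝ) : ℝ :=
  ∑ᶠ n ∈ {n : ℕ | 1 ≤ n ∧ x - H / 2 ≤ n ∧ (n : ℝ) ≤ x + H / 2}, ArithmeticFunction.vonMangoldt n

theorem result : ∀ k : ℕ, 2 ≤ k → ∀ δ : ℝ, 0 < δ → ∃ c X₀ : ℝ, 0 < c ∧ ∀ X H T U : ℝ,
    X₀ ≤ X → 1 ≤ H → H ≤ X ^ (1 / (2 * (k : ℝ)) - δ) → T = √(H * (1 + Real.log H)) →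
    U = c * T * (T / (H * Real.log X)) ^ (1 / (2 * (k : ℝ) - 1)) →
    (∀ z : ℝ, U ≤ (1 / X) * ∫ x in (1 : ℝ)..X, |psi x H - z|) ∧
    ∀ y : ℝ, (X - 1) * y = ∫ x in (1 : ℝ)..X, psi x H →
      U ^ 2 ≤ (1 / X) * ∫ x in (1 : ℝ)..X, (max (psi x H - y) 0) ^ 2 ∧
      U ^ 2 ≤ (1 / X) * ∫ x in (1 : ℝ)..X, (max (y - psi x H) 0) ^ 2 := by
  intro k hk δ hδ
  obtain ⟨c, X₀, hc, h⟩ := TH819.PL.both_signs k hk δ hδ
  refine ⟨c / 2, max X₀ 2, by positivity, fun X H T U hX hH hHX hT hU => ?_⟩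
  have hX2 : 2 ≤ X := (le_max_right _ _).trans hX
  have hX0 : 0 < X := by linarith
  obtain ⟨U0, hU0⟩ : ∃ U0 : ℝ, U0 = c * T * (T / (H * Real.log X)) ^ (1 / (2 * (k : ℝ) - 1)) := ⟨_, rfl⟩
  have hUU : U0 = 2 * U := by
    rw [hU0, hU]
    ring
  have hT0 : 0 ≤ T := by
    rw [hT]
    exact Real.sqrt_nonneg _
  have hl0 : 0 ≤ Real.log X := Real.log_nonneg (by linarith)
  have hUp : 0 ≤ U := by
    rw [hU]
    positivity
  have hz : ∀ z : ℝ, U0 ≤ (1 / X) * ∫ x in (1 : ℝ)..X, |psi x H - z| := by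
    obtain ⟨-, -, h3⟩ := h X H T U0 ((∫ x in (1 : ℝ)..X, H321VP.psi x H) / (X - 1))
      ((le_max_left _ _).trans hX) hH hHX hT hU0 (by
        have : X - 1 ≠ 0 := by linarith
        field_simp)
    exact h3
  refine ⟨fun z => le_trans (by rw [hUU]; linarith) (hz z), fun y hy => ?_⟩
  set M := ⌈X + H / 2⌉₊ with hM
  have hM1 : X + H / 2 ≤ M := Nat.le_ceil _
  have hpsi : ∀ x ∈ Set.uIcc 1 X, psi x H = H321VP.DD M H x + H := by
    intro x hx
    rw [Set.uIcc_of_le (by linarith)] at hx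
    have h1 := H321VP.psi_eq (H := H) (x := x) (M := M) (by linarith [hx.2])
    have h2 : psi x H = H321VP.psi x H := rfl
    rw [h2]
    linarith
  have hmeas : Measurable (fun x => H321VP.DD M H x + H) := (H321VP.DD_meas M H).add_const H
  have hDb : ∀ x, |H321VP.DD M H x + H| ≤
      (∑ n ∈ Finset.Icc 1 M, ArithmeticFunction.vonMangoldt n + |H|) + |H| := fun x =>
    (abs_add_le _ _).trans (by
      have := H321VP.DD_bound M H x
      linarith)
  obtain ⟨C, hC⟩ : ∃ C : ℝ, C = (∑ n ∈ Finset.Icc 1 M, ArithmeticFunction.vonMangoldt n + |H|) + |H| :=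
    ⟨_, rfl⟩
  rw [← hC] at hDb
  have hi : IntervalIntegrable (fun x => H321VP.DD M H x + H) volume 1 X :=
    Pool.Agent.V1173.BS.ii hmeas hDb
  have hint : ∫ x in (1 : ℝ)..X, psi x H = ∫ x in (1 : ℝ)..X, (H321VP.DD M H x + H) :=
    intervalIntegral.integral_congr hpsi
  have hmean : ∫ x in (1 : ℝ)..X, ((H321VP.DD M H x + H) - y) = 0 := by
    rw [intervalIntegral.integral_sub hi intervalIntegrable_const, intervalIntegral.integral_const,
      smul_eq_mul, ← hint, ← hy, sub_self]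
  have habs : X * (2 * U) ≤ ∫ x in (1 : ℝ)..X, |(H321VP.DD M H x + H) - y| := by
    have h1 := hz y
    have h2 : ∫ x in (1 : ℝ)..X, |psi x H - y| = ∫ x in (1 : ℝ)..X, |(H321VP.DD M H x + H) - y| := by
      refine intervalIntegral.integral_congr fun x hx => ?_
      change |psi x H - y| = |(H321VP.DD M H x + H) - y|
      rw [hpsi x hx]
    rw [h2, hUU] at h1
    have h3 : X * ((1 / X) * ∫ x in (1 : ℝ)..X, |(H321VP.DD M H x + H) - y|) =
        ∫ x in (1 : ℝ)..X, |(H321VP.DD M H x + H) - y| := by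
      field_simp
    rw [← h3]
    exact mul_le_mul_of_nonneg_left h1 hX0.le
  have hfin : ∀ I : ℝ, X * U ^ 2 ≤ I → U ^ 2 ≤ (1 / X) * I := by
    intro I hI
    have h3 : (1 / X) * (X * U ^ 2) = U ^ 2 := by field_simp
    rw [← h3]
    exact mul_le_mul_of_nonneg_left hI (by positivity)
  constructor
  · apply hfin
    have h1 := Pool.Agent.V1173.BS.onesided (X := X) (by linarith)
      (G := fun x => (H321VP.DD M H x + H) - y) (hmeas.sub_const y) (C := C + |y|)
      (fun x => (abs_sub _ _).trans (add_le_add_left (hDb x) _)) hmean hUp habs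
    refine h1.trans (le_of_eq ?_)
    refine intervalIntegral.integral_congr fun x hx => ?_
    change (max ((H321VP.DD M H x + H) - y) 0) ^ 2 = (max (psi x H - y) 0) ^ 2
    rw [hpsi x hx]
  · apply hfin
    have h1 := Pool.Agent.V1173.BS.onesided (X := X) (by linarith)
      (G := fun x => y - (H321VP.DD M H x + H)) (hmeas.const_sub y) (C := |y| + C)
      (fun x => (abs_sub _ _).trans (add_le_add_right (hDb x) _)) (by
        have h2 : ∀ x : ℝ, y - (H321VP.DD M H x + H) = -((H321VP.DD M H x + H) - y) := fun x => by ring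
        simp_rw [h2]
        rw [intervalIntegral.integral_neg, hmean, neg_zero]) hUp (by
        refine habs.trans (le_of_eq ?_)
        refine intervalIntegral.integral_congr fun x _ => ?_
        exact abs_sub_comm _ _)
    refine h1.trans (le_of_eq ?_)
    refine intervalIntegral.integral_congr fun x hx => ?_
    change (max (y - (H321VP.DD M H x + H)) 0) ^ 2 = (max (y - psi x H) 0) ^ 2
    rw [hpsi x hx]

end Pool.Agent.Results.MP_2a816b_nt.OneSidedVariance
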